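import Pool.Agent.Y34.HB.Stm2

/-!
# The space of half-planes bounded by a line (job HP-HPC of helper34)
-/

set_option autoImplicit false

universe u v

open Metric Set Filter Topology
open Pool.Agent.TH60.FP
open Pool.Agent.Y34.HB

namespace Pool.Agent.Y514.HB

theorem HP_dist {X : Type u} [MetricSpace X] {c : ℝ → X} {H : ℝ × NNReal → X} (hH : H ∈ HP c)
    (p : ℝ × NNReal) : dist (H p) (c p.1) = p.2 := by
  have h := hH.1 p (p.1, 0)
  rw [hH.2 p.1] at h
  have h2 : dist (H p) (c p.1) ^ 2 = (p.2 : ℝ) ^ 2 := by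
    rw [h]; simp
  exact (sq_eq_sq₀ dist_nonneg p.2.2).1 h2

theorem HP_cont {X : Type u} [MetricSpace X] {c : ℝ → X} {H : ℝ × NNReal → X} (hH : H ∈ HP c) :
    Continuous H := by
  rw [continuous_iff_continuousAt]
  intro p
  rw [ContinuousAt, tendsto_iff_dist_tendsto_zero]
  have h1 : (fun q => dist (H q) (H p)) =
      fun q : ℝ × NNReal => Real.sqrt ((q.1 - p.1) ^ 2 + ((q.2 : ℝ) - p.2) ^ 2) := by
    funext q
    rw [← hH.1 q p, Real.sqrt_sq dist_nonneg]
  rw [h1]
  have h2 : Continuous (fun q : ℝ × NNReal =>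
      Real.sqrt ((q.1 - p.1) ^ 2 + ((q.2 : ℝ) - p.2) ^ 2)) := by fun_prop
  have h3 := h2.tendsto p
  simpa using h3

theorem HP_closed {X : Type u} [MetricSpace X] (c : ℝ → X) : IsClosed (HP c) := by
  have h : HP c = (⋂ p : ℝ × NNReal, ⋂ q : ℝ × NNReal, {H : ℝ × NNReal → X |
      dist (H p) (H q) ^ 2 = (p.1 - q.1) ^ 2 + ((p.2 : ℝ) - q.2) ^ 2}) ∩
      ⋂ t : ℝ, {H : ℝ × NNReal → X | H (t, 0) = c t} := by
    ext H
    simp only [HP, mem_ofPred_eq, mem_inter_iff, mem_iInter]
  rw [h]
  refine IsClosed.inter ?_ ?_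
  · refine isClosed_iInter fun p => isClosed_iInter fun q => ?_
    exact isClosed_eq (((continuous_apply p).dist (continuous_apply q)).pow 2) continuous_const
  · refine isClosed_iInter fun t => ?_
    exact isClosed_eq (continuous_apply _) continuous_const

theorem t : S_HPC.{u} := by
  intro X _ _ c _
  have hcomp : IsCompact (HP c) := by
    have hK : IsCompact (Set.pi univ (fun p : ℝ × NNReal => closedBall (c p.1) (p.2 : ℝ))) :=
      isCompact_univ_pi fun p => isCompact_closedBall _ _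
    refine hK.of_isClosed_subset (HP_closed c) ?_
    intro H hH p _
    exact mem_closedBall.2 (HP_dist hH p).le
  refine ⟨hcomp, fun hunc => ?_⟩
  let e : ℕ → ℝ × NNReal := TopologicalSpace.denseSeq (ℝ × NNReal)
  have he : DenseRange e := TopologicalSpace.denseRange_denseSeq _
  let ρ : (ℝ × NNReal → X) → (ℕ → X) := fun H n => H (e n)
  have hρ : Continuous ρ := continuous_pi fun n => continuous_apply _
  have hinj : InjOn ρ (HP c) := by
    intro H hH H' hH' h
    refine he.equalizer (HP_cont hH) (HP_cont hH') ?_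
    funext n
    exact congrFun h n
  have hC : IsClosed (ρ '' HP c) := (hcomp.image hρ).isClosed
  have hC' : ¬ (ρ '' HP c).Countable := fun h =>
    hunc (Set.countable_of_injective_of_countable_image hinj h)
  obtain ⟨f, hf1, -, hf3⟩ := hC.exists_nat_bool_injection_of_not_countable hC'
  have hch : ∀ x, ∃ H ∈ HP c, ρ H = f x := fun x => hf1 (mem_range_self x)
  choose Φ hΦ1 hΦ2 using hch
  refine ⟨Φ, ?_, hΦ1⟩
  intro x y hxy
  apply hf3
  rw [← hΦ2 x, ← hΦ2 y, hxy]

end Pool.Agent.Y514.HB
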